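import Pool.Agent.Y667.PA.Stm
import Pool.Agent.Y655.RZ.Par

/-!
# Project PA, part ABSA: absolute parity from three Lagrangians
-/

set_option autoImplicit false

namespace Pool.Agent.Y99.PA

open Finset Pool.Agent.W262.RK Pool.Agent.W307.RT Pool.Agent.W307.RS Pool.Agent.W307.SE
  Pool.Agent.W307.FK Pool.Agent.Y667.RP Pool.Agent.Y667.RZ Pool.Agent.Y655.RZ Pool.Agent.Y667.PA

open NumberTheorySymbols jacobiSym

/-- the condition at a prime dividing `a` -/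
def LPa (σ e : Bool) (v w h g : Bool) : Prop := h = (v && σ) ∧ g = (w && xor σ e)

/-- the condition at a prime not dividing `a` -/
def LPb (A : Bool) (v w _h g : Bool) : Prop := w = false ∧ (if A = true then v = false else g = false)

lemma LP_pos {a : ℤ} {p : ℕ} (h : (p : ℤ) ∣ a) : LP a p = LPa (sgn p a) (sg0 p (-1)) := by
  funext v w x g
  unfold LP LPa
  rw [if_pos h]

lemma LP_neg {a : ℤ} {p : ℕ} (h : ¬ (p : ℤ) ∣ a) : LP a p = LPb (sg0 p (-a)) := by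
  funext v w x g
  unfold LP LPb
  rw [if_neg h]
  unfold sg0
  by_cases hJ : jacobiSym (-a) p = -1
  · rw [if_pos hJ, if_pos (by simpa using hJ)]
  · rw [if_neg hJ, if_neg (by simpa using hJ)]

lemma xcLPa (σ e : Bool) : XC (LPa σ e) := by
  refine ⟨⟨rfl, rfl⟩, ?_⟩
  rintro a b c d a' b' c' d' ⟨rfl, rfl⟩ ⟨rfl, rfl⟩
  unfold LPa
  revert a b a' b' σ e
  decide

lemma xcLPb (A : Bool) : XC (LPb A) := by
  cases A
  · refine ⟨⟨rfl, rfl⟩, ?_⟩
    rintro a b c d a' b' c' d' ⟨rfl, h⟩ ⟨rfl, h'⟩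
    rw [if_neg (by decide)] at h h'
    subst h h'
    exact ⟨rfl, rfl⟩
  · refine ⟨⟨rfl, rfl⟩, ?_⟩
    rintro a b c d a' b' c' d' ⟨rfl, h⟩ ⟨rfl, h'⟩
    rw [if_pos rfl] at h h'
    subst h h'
    exact ⟨rfl, rfl⟩

lemma xcLP (a : ℤ) (p : ℕ) : XC (LP a p) := by
  by_cases h : (p : ℤ) ∣ a
  · rw [LP_pos h]; exact xcLPa _ _
  · rw [LP_neg h]; exact xcLPb _

lemma natcard_key (n : ℕ) (P : XX → Prop) [DecidablePred P] (h : Fintype.card {x : XX // P x} = n) :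
    Nat.card {x : XX // P x} = n := by
  rw [Nat.card_eq_fintype_card, h]

lemma card_LPa (σ e : Bool) : Nat.card {x : XX // LX (LPa σ e) x} = 4 := by
  unfold LX LPa
  cases σ <;> cases e
  all_goals exact natcard_key _ _ (by decide)

lemma card_LPb (A : Bool) : Nat.card {x : XX // LX (LPb A) x} = 4 := by
  unfold LX LPb
  cases A
  all_goals exact natcard_key _ _ (by decide)

lemma card_LP (a : ℤ) (p : ℕ) : Nat.card {x : XX // LX (LP a p) x} = 4 := by
  by_cases h : (p : ℤ) ∣ a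
  · rw [LP_pos h]; exact card_LPa _ _
  · rw [LP_neg h]; exact card_LPb _

lemma card_i0 (neg σ e : Bool) : Nat.card {x : XX // LX (LR 0 neg) x ∧ LX (LPa σ e) x} =
    2 ^ (if e = neg then 1 else 0) := by
  unfold LX LPa LR
  cases neg <;> cases σ <;> cases e
  all_goals exact natcard_key _ _ (by decide)

lemma card_i1 (A : Bool) : Nat.card {x : XX // LX (LR 1 A) x ∧ LX (LPb A) x} =
    2 ^ (if A = true then 1 else 2) := by
  unfold LX LPb LR
  cases A
  all_goals exact natcard_key _ _ (by decide)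

lemma card_i2 (neg A : Bool) : Nat.card {x : XX // LX (LR 2 neg) x ∧ LX (LPb A) x} =
    2 ^ (if A = true then 1 else 0) := by
  unfold LX LPb LR
  cases neg <;> cases A
  all_goals exact natcard_key _ _ (by decide)

lemma qa0 {neg e σ v w h g : Bool} (h1 : LR 0 neg v w h g) :
    qb e (xor σ e) true true σ v w h g = false := by
  unfold LR at h1
  rw [if_pos rfl] at h1
  obtain ⟨rfl, h1⟩ := h1
  revert h1
  revert neg e σ v h g
  unfold qb Pool.Agent.Y667.RP.hb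
  decide

lemma qa1 {A e d v w h g : Bool} (h1 : LR 1 A v w h g) :
    qb e A false false d v w h g = false := by
  unfold LR at h1
  rw [if_neg (by decide), if_pos rfl] at h1
  obtain ⟨rfl, h1⟩ := h1
  revert h1
  revert A e d v h g
  unfold qb Pool.Agent.Y667.RP.hb
  decide

lemma qa2 {σ e A v w h g : Bool} (h1 : LR 2 σ v w h g) :
    qb e A false false σ v w h g = false := by
  unfold LR at h1
  rw [if_neg (by decide), if_neg (by decide)] at h1
  obtain ⟨rfl, h1⟩ := h1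
  revert h1
  revert A e σ w h g
  unfold qb Pool.Agent.Y667.RP.hb
  decide

lemma qpa {e σ v w h g : Bool} (h1 : LPa σ e v w h g) :
    qb e (xor σ e) true true σ v w h g = false := by
  obtain ⟨rfl, rfl⟩ := h1
  revert e σ v w
  unfold qb Pool.Agent.Y667.RP.hb
  decide

lemma qpb {A e d v w h g : Bool} (h1 : LPb A v w h g) :
    qb e A false false d v w h g = false := by
  obtain ⟨rfl, h1⟩ := h1
  revert h1
  revert A e d v h g
  unfold qb Pool.Agent.Y667.RP.hb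
  decide

lemma sg_inj : ∀ a b : Bool, sg a = sg b → a = b := by decide

lemma sg0_neg {p : ℕ} (hp : p.Prime) {x : ℤ} (hx : ¬ (p : ℤ) ∣ x) :
    sg0 p (-x) = xor (sg0 p x) (sg0 p (-1)) := by
  apply sg_inj
  have h1 : ¬ (p : ℤ) ∣ -x := by rwa [dvd_neg]
  have h2 : ¬ (p : ℤ) ∣ (-1 : ℤ) := by
    rw [dvd_neg]
    exact (Nat.prime_iff_prime_int.1 hp).not_dvd_one
  rw [sg_xor, sg_sg0 hp h1, sg_sg0 hp hx, sg_sg0 hp h2, ← jacobiSym.mul_left]
  congr 1
  ring

lemma sgn_neg {p : ℕ} (hp : p.Prime) {x : ℤ} (hx : Squarefree x) :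
    sgn p (-x) = xor (sgn p x) (sg0 p (-1)) := by
  by_cases h : (p : ℤ) ∣ x
  · have h' : (p : ℤ) ∣ -x := by rwa [dvd_neg]
    rw [sgn_dvd h, sgn_dvd h']
    obtain ⟨t, rfl⟩ := h
    have hp0 : (p : ℤ) ≠ 0 := (Nat.prime_iff_prime_int.1 hp).ne_zero
    have ht : ¬ (p : ℤ) ∣ t := by
      rintro ⟨k, rfl⟩
      have h2 := hx p ⟨k, by ring⟩
      exact (Nat.prime_iff_prime_int.1 hp).not_isUnit h2
    rw [show -((p : ℤ) * t) = p * (-t) by ring, Int.mul_ediv_cancel_left _ hp0,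
      Int.mul_ediv_cancel_left _ hp0]
    exact sg0_neg hp ht
  · rw [sgn_ndvd hp h, sgn_ndvd hp (by rwa [dvd_neg])]
    exact sg0_neg hp h

lemma dv_neg (p : ℕ) (x : ℤ) : dv p (-x) = dv p x := by
  unfold dv
  rw [decide_eq_decide, dvd_neg]

lemma jac_cases {p : ℕ} (hp : p.Prime) {x : ℤ} (hx : ¬ (p : ℤ) ∣ x) :
    J(x | p) = 1 ∨ J(x | p) = -1 := by
  apply jacobiSym.eq_one_or_neg_one
  rw [Int.gcd_comm, ← Int.isCoprime_iff_gcd_eq_one]
  exact ((Nat.prime_iff_prime_int.1 hp).coprime_iff_not_dvd).2 hx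

section loc

variable {s : Fin 3 → ℕ}

lemma excl (hs : Squarefree (∏ j, s j)) {p : ℕ} (hp : p.Prime) {i j : Fin 3} (hij : i ≠ j)
    (hi : p ∣ s i) : ¬ p ∣ s j := by
  intro hj
  have h1 : s i * s j ∣ ∏ j, s j := by
    rw [← mul_prod_erase univ s (mem_univ j), mul_comm]
    exact Nat.mul_dvd_mul_left _ (dvd_prod_of_mem s (mem_erase.2 ⟨hij, mem_univ i⟩))
  have h2 := hs p ((Nat.mul_dvd_mul hi hj).trans h1)
  exact hp.one_lt.ne' (Nat.isUnit_iff.1 h2)

/-- the signs at a prime of the class 0 -/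
lemma mem0 (hs : Squarefree (∏ j, s j)) (hodd : Odd (∏ j, s j))
    (hrel : (s 0 : ℤ) - s 1 = 32 * s 2) {p : ℕ} (hp : p.Prime) (h0 : p ∣ s 0) :
    decide (p ∈ sgF (s 0) (s 1) (∏ j, s j)) = sg0 p (-(s 1 : ℤ)) := by
  have hpM : p ∈ (∏ j, s j).primeFactors := Nat.mem_primeFactors.2
    ⟨hp, h0.trans (dvd_prod_of_mem s (mem_univ 0)), hs.ne_zero⟩
  have n1 : ¬ (p : ℤ) ∣ (s 1 : ℤ) := fun h =>
    excl hs hp (by decide : (0 : Fin 3) ≠ 1) h0 (Int.natCast_dvd_natCast.1 h)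
  have h0i : (p : ℤ) ∣ (s 0 : ℤ) := Int.natCast_dvd_natCast.2 h0
  unfold sgF sg0
  rw [decide_eq_decide, mem_filter]
  constructor
  · rintro ⟨-, h | h | h⟩
    · exact h.2
    · exact absurd h.1 n1
    · exact absurd ((Int.dvd_iff_dvd_of_dvd_sub h.1).1 h0i) n1
  · intro h
    exact ⟨hpM, Or.inl ⟨h0i, h⟩⟩

lemma mem1 (hs : Squarefree (∏ j, s j)) (hodd : Odd (∏ j, s j))
    (hrel : (s 0 : ℤ) - s 1 = 32 * s 2) {p : ℕ} (hp : p.Prime) (h1 : p ∣ s 1) :
    decide (p ∈ sgF (s 0) (s 1) (∏ j, s j)) = sg0 p (-(s 0 : ℤ)) := by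
  have hpM : p ∈ (∏ j, s j).primeFactors := Nat.mem_primeFactors.2
    ⟨hp, h1.trans (dvd_prod_of_mem s (mem_univ 1)), hs.ne_zero⟩
  have n0 : ¬ (p : ℤ) ∣ (s 0 : ℤ) := fun h =>
    excl hs hp (by decide : (1 : Fin 3) ≠ 0) h1 (Int.natCast_dvd_natCast.1 h)
  have h1i : (p : ℤ) ∣ (s 1 : ℤ) := Int.natCast_dvd_natCast.2 h1
  unfold sgF sg0
  rw [decide_eq_decide, mem_filter]
  constructor
  · rintro ⟨-, h | h | h⟩
    · exact absurd h.1 n0
    · exact h.2
    · exact absurd ((Int.dvd_iff_dvd_of_dvd_sub h.1).2 h1i) n0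
  · intro h
    exact ⟨hpM, Or.inr (Or.inl ⟨h1i, h⟩)⟩

lemma mem2 (hs : Squarefree (∏ j, s j)) (hodd : Odd (∏ j, s j))
    (hrel : (s 0 : ℤ) - s 1 = 32 * s 2) {p : ℕ} (hp : p.Prime) (h2 : p ∣ s 2) :
    decide (p ∈ sgF (s 0) (s 1) (∏ j, s j)) = sg0 p (s 0 : ℤ) := by
  have hpM : p ∈ (∏ j, s j).primeFactors := Nat.mem_primeFactors.2
    ⟨hp, h2.trans (dvd_prod_of_mem s (mem_univ 2)), hs.ne_zero⟩
  have n0 : ¬ (p : ℤ) ∣ (s 0 : ℤ) := fun h =>
    excl hs hp (by decide : (2 : Fin 3) ≠ 0) h2 (Int.natCast_dvd_natCast.1 h)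
  have n1 : ¬ (p : ℤ) ∣ (s 1 : ℤ) := fun h =>
    excl hs hp (by decide : (2 : Fin 3) ≠ 1) h2 (Int.natCast_dvd_natCast.1 h)
  have h2i : (p : ℤ) ∣ (s 0 : ℤ) - s 1 := by
    rw [hrel]
    exact (Int.natCast_dvd_natCast.2 h2).mul_left _
  unfold sgF sg0
  rw [decide_eq_decide, mem_filter]
  constructor
  · rintro ⟨-, h | h | h⟩
    · exact absurd h.1 n0
    · exact absurd h.1 n1
    · exact h.2
  · intro h
    exact ⟨hpM, Or.inr (Or.inr ⟨h2i, h⟩)⟩

/-- the isotropy of the Selmer conditions -/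
lemma iso_LF (hs : Squarefree (∏ j, s j)) (hodd : Odd (∏ j, s j))
    (hrel : (s 0 : ℤ) - s 1 = 32 * s 2) (hx : Squarefree (s 0 : ℤ)) (p : ℕ)
    (hp : p ∈ (∏ j, s j).primeFactors)
    (v w h g : Bool) (hL : LF s (sgF (s 0) (s 1) (∏ j, s j)) p v w h g) :
    qb (sg0 p (-1)) (sgn p (-(s 0 : ℤ))) (dv p (-(s 0 : ℤ))) (dv p (s 0)) (sgn p (s 0))
      v w h g = false := by
  have hpp := Nat.prime_of_mem_primeFactors hp
  have hpd := Nat.dvd_of_mem_primeFactors hp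
  obtain ⟨j, -, hj⟩ := (hpp.prime.dvd_finsetProd_iff _).1 hpd
  have hLR := (LF_iff hs hpp hj).1 hL
  rw [dv_neg, sgn_neg hpp hx]
  rcases fin3 j with rfl | rfl | rfl
  · have h0i : dv p (s 0 : ℤ) = true := by
      unfold dv
      rw [decide_eq_true_iff]
      exact Int.natCast_dvd_natCast.2 hj
    rw [h0i]
    exact qa0 hLR
  · have n0 : ¬ (p : ℤ) ∣ (s 0 : ℤ) := fun h =>
      excl hs hpp (by decide : (1 : Fin 3) ≠ 0) hj (Int.natCast_dvd_natCast.1 h)
    have h0i : dv p (s 0 : ℤ) = false := by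
      unfold dv
      rw [decide_eq_false_iff_not]
      exact n0
    rw [mem1 hs hodd hrel hpp hj, sg0_neg hpp n0] at hLR
    rw [h0i, sgn_ndvd hpp n0]
    exact qa1 hLR
  · have n0 : ¬ (p : ℤ) ∣ (s 0 : ℤ) := fun h =>
      excl hs hpp (by decide : (2 : Fin 3) ≠ 0) hj (Int.natCast_dvd_natCast.1 h)
    have h0i : dv p (s 0 : ℤ) = false := by
      unfold dv
      rw [decide_eq_false_iff_not]
      exact n0
    rw [mem2 hs hodd hrel hpp hj] at hLR
    rw [h0i, sgn_ndvd hpp n0]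
    exact qa2 hLR

/-- the isotropy of the auxiliary conditions -/
lemma iso_LP {a : ℤ} (hx : Squarefree a) (p : ℕ) (hpp : p.Prime)
    (v w h g : Bool) (hL : LP a p v w h g) :
    qb (sg0 p (-1)) (sgn p (-a)) (dv p (-a)) (dv p a) (sgn p a) v w h g = false := by
  rw [dv_neg, sgn_neg hpp hx]
  by_cases hd : (p : ℤ) ∣ a
  · rw [LP_pos hd] at hL
    have h0i : dv p a = true := by
      unfold dv
      rw [decide_eq_true_iff]
      exact hd
    rw [h0i]
    exact qpa hL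
  · rw [LP_neg hd, sg0_neg hpp hd] at hL
    have h0i : dv p a = false := by
      unfold dv
      rw [decide_eq_false_iff_not]
      exact hd
    rw [h0i, sgn_ndvd hpp hd]
    exact qpb hL

/-- the local dimension of the intersection -/
def kp (s : Fin 3 → ℕ) (p : ℕ) : ℕ :=
  if p ∣ s 0 then (if J((s 1 : ℤ) | p) = 1 then 1 else 0)
  else if p ∣ s 1 then (if J(-(s 0 : ℤ) | p) = -1 then 1 else 2)
  else (if J(-(s 0 : ℤ) | p) = -1 then 1 else 0)

lemma sg0_true {p : ℕ} {x : ℤ} : sg0 p x = true ↔ J(x | p) = -1 := by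
  unfold sg0
  rw [decide_eq_true_iff]

lemma card_i (hs : Squarefree (∏ j, s j)) (hodd : Odd (∏ j, s j))
    (hrel : (s 0 : ℤ) - s 1 = 32 * s 2) (p : ℕ)
    (hp : p ∈ (∏ j, s j).primeFactors) :
    Nat.card {x : XX // LX (fun v w h g => LF s (sgF (s 0) (s 1) (∏ j, s j)) p v w h g ∧
      LP (s 0 : ℤ) p v w h g) x} = 2 ^ kp s p := by
  have hpp := Nat.prime_of_mem_primeFactors hp
  have hpd := Nat.dvd_of_mem_primeFactors hp
  obtain ⟨j, -, hj⟩ := (hpp.prime.dvd_finsetProd_iff _).1 hpd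
  have hLF : LF s (sgF (s 0) (s 1) (∏ j, s j)) p =
      LR j (decide (p ∈ sgF (s 0) (s 1) (∏ j, s j))) := by
    funext v w x g
    exact propext (LF_iff hs hpp hj)
  rw [hLF]
  unfold kp
  rcases fin3 j with rfl | rfl | rfl
  · have h0i : (p : ℤ) ∣ (s 0 : ℤ) := Int.natCast_dvd_natCast.2 hj
    have n1 : ¬ (p : ℤ) ∣ (s 1 : ℤ) := fun h =>
      excl hs hpp (by decide : (0 : Fin 3) ≠ 1) hj (Int.natCast_dvd_natCast.1 h)
    rw [LP_pos h0i, if_pos hj, mem0 hs hodd hrel hpp hj, sg0_neg hpp n1]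
    refine (show _ = _ from card_i0 _ _ _).trans ?_
    congr 1
    have h2 : (sg0 p (-1) = xor (sg0 p (s 1 : ℤ)) (sg0 p (-1))) ↔ J((s 1 : ℤ) | p) = 1 := by
      have h3 : (sg0 p (-1) = xor (sg0 p (s 1 : ℤ)) (sg0 p (-1))) ↔ ¬ sg0 p (s 1 : ℤ) = true := by
        generalize sg0 p (-1) = x
        generalize sg0 p (s 1 : ℤ) = y
        revert x y
        decide
      rw [h3, sg0_true]
      rcases jac_cases hpp n1 with h | h
      · rw [h]; norm_num
      · rw [h]; norm_num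
    by_cases h4 : J((s 1 : ℤ) | p) = 1
    · rw [if_pos h4, if_pos (h2.2 h4)]
    · rw [if_neg h4, if_neg (fun h => h4 (h2.1 h))]
  · have hn0 : ¬ p ∣ s 0 := excl hs hpp (by decide : (1 : Fin 3) ≠ 0) hj
    have n0 : ¬ (p : ℤ) ∣ (s 0 : ℤ) := fun h => hn0 (Int.natCast_dvd_natCast.1 h)
    rw [LP_neg n0, if_neg hn0, if_pos hj, mem1 hs hodd hrel hpp hj]
    refine (show _ = _ from card_i1 _).trans ?_
    congr 1
    by_cases h4 : J(-(s 0 : ℤ) | p) = -1
    · rw [if_pos h4, if_pos (sg0_true.2 h4)]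
    · rw [if_neg h4, if_neg (fun h => h4 (sg0_true.1 h))]
  · have hn0 : ¬ p ∣ s 0 := excl hs hpp (by decide : (2 : Fin 3) ≠ 0) hj
    have hn1 : ¬ p ∣ s 1 := excl hs hpp (by decide : (2 : Fin 3) ≠ 1) hj
    have n0 : ¬ (p : ℤ) ∣ (s 0 : ℤ) := fun h => hn0 (Int.natCast_dvd_natCast.1 h)
    rw [LP_neg n0, if_neg hn0, if_neg hn1]
    refine (show _ = _ from card_i2 _ _).trans ?_
    congr 1
    by_cases h4 : J(-(s 0 : ℤ) | p) = -1
    · rw [if_pos h4, if_pos (sg0_true.2 h4)]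
    · rw [if_neg h4, if_neg (fun h => h4 (sg0_true.1 h))]

/-- the sign of a prime -/
def ψ (s : Fin 3 → ℕ) (p : ℕ) : ℤ :=
  if p ∣ s 0 then J(-1 | p) else if p ∣ s 1 then J(-(s 0 : ℤ) | p) else J((s 0 : ℤ) | p)

/-- the local contributions -/
lemma loc_sign (hs : Squarefree (∏ j, s j)) (hodd : Odd (∏ j, s j))
    (hrel : (s 0 : ℤ) - s 1 = 32 * s 2) (p : ℕ)
    (hp : p ∈ (∏ j, s j).primeFactors) :
    (-1 : ℤ) ^ (kp s p + (if ¬ (p : ℤ) ∣ (s 0 : ℤ) ∧ J(-(s 0 : ℤ) | p) = 1 then 1 else 0) +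
      (if p ∉ sgF (s 0) (s 1) (∏ j, s j) then 1 else 0)) = ψ s p := by
  have hpp := Nat.prime_of_mem_primeFactors hp
  have hpd := Nat.dvd_of_mem_primeFactors hp
  obtain ⟨j, -, hj⟩ := (hpp.prime.dvd_finsetProd_iff _).1 hpd
  unfold kp ψ
  have hm1 : ¬ (p : ℤ) ∣ (-1 : ℤ) := by
    rw [dvd_neg]
    exact (Nat.prime_iff_prime_int.1 hpp).not_dvd_one
  rcases fin3 j with rfl | rfl | rfl
  · have h0i : (p : ℤ) ∣ (s 0 : ℤ) := Int.natCast_dvd_natCast.2 hj
    have n1 : ¬ (p : ℤ) ∣ (s 1 : ℤ) := fun h =>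
      excl hs hpp (by decide : (0 : Fin 3) ≠ 1) hj (Int.natCast_dvd_natCast.1 h)
    have hE := mem0 hs hodd hrel hpp hj
    have hE' : p ∈ sgF (s 0) (s 1) (∏ j, s j) ↔ J(-(s 1 : ℤ) | p) = -1 := by
      rw [← sg0_true, ← hE, decide_eq_true_iff]
    have hmul : J(-(s 1 : ℤ) | p) = J(-1 | p) * J((s 1 : ℤ) | p) := by
      rw [← jacobiSym.mul_left]
      congr 1
      ring
    have hne : ¬ (¬ (p : ℤ) ∣ (s 0 : ℤ) ∧ J(-(s 0 : ℤ) | p) = 1) := fun h => h.1 h0i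
    rw [if_pos hj, if_pos hj, if_neg hne]
    rcases jac_cases hpp n1 with h | h <;> rcases jac_cases hpp hm1 with h' | h' <;>
      rw [h, h'] at hmul <;> norm_num at hmul <;> rw [h, h'] <;> simp [hE', hmul]
  · have hn0 : ¬ p ∣ s 0 := excl hs hpp (by decide : (1 : Fin 3) ≠ 0) hj
    have n0 : ¬ (p : ℤ) ∣ (s 0 : ℤ) := fun h => hn0 (Int.natCast_dvd_natCast.1 h)
    have hE := mem1 hs hodd hrel hpp hj
    have hE' : p ∈ sgF (s 0) (s 1) (∏ j, s j) ↔ J(-(s 0 : ℤ) | p) = -1 := by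
      rw [← sg0_true, ← hE, decide_eq_true_iff]
    have n0' : ¬ (p : ℤ) ∣ -(s 0 : ℤ) := by rwa [dvd_neg]
    rw [if_neg hn0, if_pos hj, if_neg hn0, if_pos hj]
    rcases jac_cases hpp n0' with h | h <;> rw [h] <;> simp [hE', n0, h, hn0]
  · have hn0 : ¬ p ∣ s 0 := excl hs hpp (by decide : (2 : Fin 3) ≠ 0) hj
    have hn1 : ¬ p ∣ s 1 := excl hs hpp (by decide : (2 : Fin 3) ≠ 1) hj
    have n0 : ¬ (p : ℤ) ∣ (s 0 : ℤ) := fun h => hn0 (Int.natCast_dvd_natCast.1 h)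
    have hE := mem2 hs hodd hrel hpp hj
    have hE' : p ∈ sgF (s 0) (s 1) (∏ j, s j) ↔ J((s 0 : ℤ) | p) = -1 := by
      rw [← sg0_true, ← hE, decide_eq_true_iff]
    have n0' : ¬ (p : ℤ) ∣ -(s 0 : ℤ) := by rwa [dvd_neg]
    rw [if_neg hn0, if_neg hn1, if_neg hn0, if_neg hn1]
    rcases jac_cases hpp n0 with h | h <;> rcases jac_cases hpp n0' with h' | h' <;>
      rw [h, h'] <;> simp [hE', n0, h, h', hn0]

/-- the global sign -/
lemma glob_sign (hs : Squarefree (∏ j, s j)) (hodd : Odd (∏ j, s j))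
    (hrel : (s 0 : ℤ) - s 1 = 32 * s 2) (h0 : s 0 % 8 = 1) (h1 : s 1 % 8 = 1) :
    ∏ p ∈ (∏ j, s j).primeFactors, ψ s p = 1 := by
  classical
  have hsj : ∀ j : Fin 3, Squarefree (s j) := fun j =>
    hs.squarefree_of_dvd (dvd_prod_of_mem s (mem_univ j))
  have hsn : ∀ j : Fin 3, s j ≠ 0 := fun j => (hsj j).ne_zero
  have hP : ∏ j, s j = s 0 * s 1 * s 2 := prod3 s
  have c012 : Nat.Coprime (s 0 * s 1) (s 2) := Nat.coprime_of_squarefree_mul (by rwa [← hP])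
  have c01 : Nat.Coprime (s 0) (s 1) := Nat.coprime_of_squarefree_mul
    (hs.squarefree_of_dvd ⟨s 2, hP⟩)
  have c02 : Nat.Coprime (s 0) (s 2) := Nat.Coprime.coprime_mul_right c012
  have c12 : Nat.Coprime (s 1) (s 2) := Nat.Coprime.coprime_mul_left c012
  have hsplit : ∏ p ∈ (∏ j, s j).primeFactors, ψ s p =
      (∏ p ∈ (s 0).primeFactors, ψ s p) * (∏ p ∈ (s 1).primeFactors, ψ s p) *
        ∏ p ∈ (s 2).primeFactors, ψ s p := by
    rw [hP, Nat.Coprime.primeFactors_mul c012, Nat.Coprime.primeFactors_mul c01,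
      prod_union, prod_union]
    · exact c01.disjoint_primeFactors
    · rw [← Nat.Coprime.primeFactors_mul c01]
      exact c012.disjoint_primeFactors
  have e0 : ∏ p ∈ (s 0).primeFactors, ψ s p = J(-1 | s 0) := by
    rw [← jac_sqf (hsj 0)]
    refine prod_congr rfl fun p hp => ?_
    unfold ψ
    rw [if_pos (Nat.dvd_of_mem_primeFactors hp)]
  have e1 : ∏ p ∈ (s 1).primeFactors, ψ s p = J(-(s 0 : ℤ) | s 1) := by
    rw [← jac_sqf (hsj 1)]
    refine prod_congr rfl fun p hp => ?_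
    have hpp := Nat.prime_of_mem_primeFactors hp
    have hd := Nat.dvd_of_mem_primeFactors hp
    unfold ψ
    rw [if_neg (excl hs hpp (by decide : (1 : Fin 3) ≠ 0) hd), if_pos hd]
  have e2 : ∏ p ∈ (s 2).primeFactors, ψ s p = J((s 0 : ℤ) | s 2) := by
    rw [← jac_sqf (hsj 2)]
    refine prod_congr rfl fun p hp => ?_
    have hpp := Nat.prime_of_mem_primeFactors hp
    have hd := Nat.dvd_of_mem_primeFactors hp
    unfold ψ
    rw [if_neg (excl hs hpp (by decide : (2 : Fin 3) ≠ 0) hd),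
      if_neg (excl hs hpp (by decide : (2 : Fin 3) ≠ 1) hd)]
  rw [hsplit, e0, e1, e2]
  have o0 : Odd (s 0) := by rw [Nat.odd_iff]; omega
  have o1 : Odd (s 1) := by rw [Nat.odd_iff]; omega
  have o2 : Odd (s 2) := Odd.of_dvd_nat hodd (dvd_prod_of_mem s (mem_univ 2))
  have f0 : J(-1 | s 0) = 1 := by
    rw [jacobiSym.at_neg_one o0, ZMod.χ₄_nat_one_mod_four (by omega)]
  have f1 : J(-1 | s 1) = 1 := by
    rw [jacobiSym.at_neg_one o1, ZMod.χ₄_nat_one_mod_four (by omega)]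
  have f2 : J(2 | s 1) = 1 := by
    rw [jacobiSym.at_two o1, ZMod.χ₈_nat_eq_if_mod_eight]
    rw [if_neg (by omega), if_pos (by omega)]
  have g1 : J(-(s 0 : ℤ) | s 1) = J((s 2 : ℤ) | s 1) := by
    have : -(s 0 : ℤ) = (-1) * (s 0 : ℤ) := by ring
    rw [this, jacobiSym.mul_left, f1, one_mul]
    rw [jacobiSym.mod_left' (a₂ := 2 ^ 5 * (s 2 : ℤ)) (b := s 1) (by
      have e : (s 0 : ℤ) = 2 ^ 5 * (s 2 : ℤ) + s 1 := by
        have : (2 : ℤ) ^ 5 = 32 := by norm_num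
        rw [this]
        linarith
      rw [e, Int.add_emod_right]), jacobiSym.mul_left, jacobiSym.pow_left, f2, one_pow, one_mul]
  have g2 : J((s 2 : ℤ) | s 1) = J((s 1 : ℤ) | s 2) :=
    (jacobiSym.quadratic_reciprocity_one_mod_four (by omega) o2).symm
  have g3 : J((s 1 : ℤ) | s 2) = J((s 0 : ℤ) | s 2) := by
    apply jacobiSym.mod_left'
    have e : (s 0 : ℤ) = s 1 + (s 2 : ℤ) * 32 := by linarith
    rw [e, Int.add_mul_emod_self_left]
  rw [f0, g1, g2, g3, one_mul]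
  have hc : (s 0 : ℤ).gcd (s 2) = 1 := by
    rw [Int.gcd_natCast_natCast]
    exact c02
  rcases jacobiSym.eq_one_or_neg_one hc with h | h
  · rw [h]; norm_num
  · rw [h]; norm_num

end loc

/-- absolute parity -/
theorem ABSA (hLAG : Pool.Agent.Y667.RZ.St_LAG) (hB : St_ABSB) : St_ABS := by
  classical
  intro s hs hodd hrel h0 h1 hS
  obtain ⟨M, hM⟩ : ∃ M, M = ∏ j, s j := ⟨_, rfl⟩
  have hMs : Squarefree M := by rw [hM]; exact hs
  have hMo : Odd M := by rw [hM]; exact hodd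
  have hS' : HS M := by rw [hM]; exact hS
  have hx0s : Squarefree (s 0 : ℤ) := Int.squarefree_natCast.2
    (hs.squarefree_of_dvd (dvd_prod_of_mem s (mem_univ 0)))
  have hx0p : 0 < (s 0 : ℤ) := by omega
  have hx08 : (s 0 : ℤ) % 8 = 1 := by omega
  have hy0s : Squarefree (-(s 0 : ℤ)) := by rwa [← Int.squarefree_natAbs, Int.natAbs_neg,
    Int.squarefree_natAbs]
  have hxM : ∀ q : ℕ, q.Prime → (q : ℤ) ∣ (s 0 : ℤ) → q ∣ M := by
    intro q hq h
    have h' : q ∣ s 0 := Int.natCast_dvd_natCast.1 h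
    rw [hM]
    exact h'.trans (dvd_prod_of_mem s (mem_univ 0))
  have hyM : ∀ q : ℕ, q.Prime → (q : ℤ) ∣ -(s 0 : ℤ) → q ∣ 2 * M := by
    intro q hq h
    rw [dvd_neg] at h
    exact (hxM q hq h).mul_left _
  have hQA := QQ_AM hMo hx0s hx0p hx08 hy0s hxM hyM
  have hfA := finrank_AM hMs hMo hS' hx0s hx0p hx08 hy0s hxM hyM
  obtain ⟨E, hE⟩ : ∃ E, E = sgF (s 0) (s 1) (∏ j, s j) := ⟨_, rfl⟩
  have hQW := QQ_WL (N := M.primeFactors) (e := fun p => sg0 p (-1))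
    (a := fun p => sgn p (-(s 0 : ℤ))) (b := fun p => dv p (-(s 0 : ℤ)))
    (c := fun p => dv p (s 0 : ℤ)) (d := fun p => sgn p (s 0 : ℤ)) (L := LF s E)
    (hL := xcLF s E) (by
      intro p hp v w h g hL
      rw [hM] at hp
      rw [hE] at hL
      exact iso_LF hs hodd hrel hx0s p hp v w h g hL)
  have hQW' := QQ_WL (N := M.primeFactors) (e := fun p => sg0 p (-1))
    (a := fun p => sgn p (-(s 0 : ℤ))) (b := fun p => dv p (-(s 0 : ℤ)))
    (c := fun p => dv p (s 0 : ℤ)) (d := fun p => sgn p (s 0 : ℤ)) (L := LP (s 0 : ℤ))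
    (hL := xcLP (s 0 : ℤ)) (by
      intro p hp v w h g hL
      exact iso_LP hx0s p (Nat.prime_of_mem_primeFactors hp) v w h g hL)
  have hfW : Module.finrank (ZMod 2) (WL M.primeFactors (LF s E) (xcLF s E)) =
      2 * M.primeFactors.card := by
    apply finrank_of_card
    rw [card_WL, prod_congr rfl (g := fun _ => 4), prod_const, pow_mul]
    · norm_num
    intro p hp
    obtain ⟨j, hj⟩ := exists_cls hs (p := p) (by rw [← hM]; exact hp)
    rw [hj]
    exact card_LR j _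
  have hfW' : Module.finrank (ZMod 2) (WL M.primeFactors (LP (s 0 : ℤ)) (xcLP (s 0 : ℤ))) =
      2 * M.primeFactors.card := by
    apply finrank_of_card
    rw [card_WL, prod_congr rfl (g := fun _ => 4), prod_const, pow_mul]
    · norm_num
    intro p hp
    exact card_LP _ _
  have hfI : Module.finrank (ZMod 2) (WL M.primeFactors (LF s E) (xcLF s E) ⊓
      WL M.primeFactors (LP (s 0 : ℤ)) (xcLP (s 0 : ℤ)) :
        Submodule (ZMod 2) (M.primeFactors → XX)) = ∑ p ∈ M.primeFactors, kp s p := by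
    apply finrank_of_card
    rw [inf_WL, card_WL, ← prod_pow_eq_pow_sum]
    apply prod_congr rfl
    intro p hp
    rw [hM] at hp
    rw [hE]
    exact card_i hs hodd hrel p hp
  have key := hLAG (M.primeFactors → XX) (BB M.primeFactors (fun p => b2z (sg0 p (-1))))
    (QQ M.primeFactors (fun p => b2z (sg0 p (-1))) (fun p => b2z (sgn p (-(s 0 : ℤ))))
      (fun p => b2z (dv p (-(s 0 : ℤ)))) (fun p => b2z (dv p (s 0 : ℤ)))
      (fun p => b2z (sgn p (s 0 : ℤ)))) (2 * M.primeFactors.card) (AM M)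
    (WL M.primeFactors (LF s E) (xcLF s E))
    (WL M.primeFactors (LP (s 0 : ℤ)) (xcLP (s 0 : ℤ)))
    (by rw [finrank_V]; ring) (BB_nondeg _ _) (QQ_add _ _ _ _ _ _) hQA hQW hQW' hfA hfW hfW'
  obtain ⟨k', hk', hev⟩ := hB M (s 0) hMs hMo hS' hx0s hxM
  have hk'' : Module.finrank (ZMod 2) (AM M ⊓ WL M.primeFactors (LP (s 0 : ℤ)) (xcLP (s 0 : ℤ)) :
      Submodule (ZMod 2) (M.primeFactors → XX)) = k' := by
    apply finrank_of_card
    rw [card_inf hMo hS' (LP (s 0 : ℤ)) (xcLP (s 0 : ℤ)), hk']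
  refine ⟨Module.finrank (ZMod 2) (AM M ⊓ WL M.primeFactors (LF s E) (xcLF s E) :
      Submodule (ZMod 2) (M.primeFactors → XX)), ?_, ?_⟩
  · rw [← hE, ← card_sub, card_inf hMo hS' (LF s E) (xcLF s E), hM]
    rfl
  · rw [← hE, ← hM]
    rw [hk'', hfI] at key
    -- the sum of the local contributions is even
    have hsum : Even (∑ p ∈ M.primeFactors, kp s p + (M.primeFactors.filter
        (fun p : ℕ => ¬ (p : ℤ) ∣ (s 0 : ℤ) ∧ jacobiSym (-(s 0 : ℤ)) p = 1)).card +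
        (M.primeFactors \ E).card) := by
      have h3 : (M.primeFactors \ E).card = ∑ p ∈ M.primeFactors, if p ∉ E then 1 else 0 := by
        rw [← sum_filter, sum_const, smul_eq_mul, mul_one]
        congr 1
        ext p
        rw [mem_sdiff, mem_filter]
      have h4 : (M.primeFactors.filter
          (fun p : ℕ => ¬ (p : ℤ) ∣ (s 0 : ℤ) ∧ jacobiSym (-(s 0 : ℤ)) p = 1)).card =
          ∑ p ∈ M.primeFactors,
            if ¬ (p : ℤ) ∣ (s 0 : ℤ) ∧ jacobiSym (-(s 0 : ℤ)) p = 1 then 1 else 0 := by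
        rw [← sum_filter, sum_const, smul_eq_mul, mul_one]
      rw [h3, h4, ← sum_add_distrib, ← sum_add_distrib]
      have h5 : (-1 : ℤ) ^ (∑ p ∈ M.primeFactors, (kp s p +
          (if ¬ (p : ℤ) ∣ (s 0 : ℤ) ∧ jacobiSym (-(s 0 : ℤ)) p = 1 then 1 else 0) +
          if p ∉ E then 1 else 0)) = 1 := by
        rw [← prod_pow_eq_pow_sum]
        refine Eq.trans (prod_congr rfl fun p hp => ?_) (show ∏ p ∈ M.primeFactors, ψ s p = 1 by
          rw [hM]; exact glob_sign hs hodd hrel h0 h1)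
        rw [hM] at hp
        rw [hE]
        exact loc_sign hs hodd hrel p hp
      by_contra hcon
      rw [Nat.not_even_iff_odd] at hcon
      rw [hcon.neg_one_pow] at h5
      norm_num at h5
    have h2 : Even (2 * M.primeFactors.card) := even_two_mul _
    obtain ⟨x1, hx1⟩ := key
    obtain ⟨x2, hx2⟩ := hev
    obtain ⟨x3, hx3⟩ := hsum
    obtain ⟨x4, hx4⟩ := h2
    rw [Nat.even_iff]
    omega

end Pool.Agent.Y99.PA
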